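import Pool.Agent.V11296.DA4

/-!
Arbitrary functions of the prime factors of `n^2+1`, and of the values of eight further polynomials
`F`: for each prime factor `p` of `F(n)` the value may depend in an arbitrary way on `p` and on that
one of the two prime elements above `p` which divides `n + ω`, that is, on the root `n mod p` of `F`
modulo `p`. If the two values are different often enough, then the sums over the prime factors are
equidistributed, and independent of all functions of residue classes.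

The starting files have the cancellation theorems `W251.EG.twG`, `W251.EG.tsG` for products
`g₁(d) g₂(d')` over the factorisations `F(n) = d d'`, for functions `g₁`, `g₂` of integers, and the
bilinear estimate `W251.EG.mainyG` behind them; the criterion `W251.EG.apdE` for aperiodicity needs
values given by residue classes and functions of the norm. New here: the criterion
`V11296.DA.apd_of3` for aperiodicity (a contraction argument, `V11296.CY.mean_small`), which needs no
structure of the function on the primes, and the independence from the class functions.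
-/

set_option autoImplicit false

namespace Pool.Agent.Results.MP_484c84_nt.ArbitraryPrimeFunctions

open Finset Filter

open scoped Classical in
/-- the set of the positive integers `X` with `P X` has logarithmic density `0` -/
def LogNull (P : ℕ → Prop) : Prop :=
  Tendsto (fun Z : ℕ => (∑ X ∈ (Icc 1 Z).filter P, 1 / (X : ℝ)) / Real.log Z) atTop (nhds 0)

/-- the nine pairs `(t, c)` with `t` in `{0, 1}` and `x^2+tx+c` of discriminant `-4`, `-8`, `-3`,
`-7`, `-11`, `-19`, `-43`, `-67`, `-163` -/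
def nine : List (ℕ × ℕ) :=
  [(0, 1), (0, 2), (1, 1), (1, 2), (1, 3), (1, 5), (1, 11), (1, 17), (1, 41)]

/-- the function `g(x + y ω) = g x y` on `ℤ[ω]`, where `ω^2 = t ω - c`, satisfies `g(u z) = g(z)` for
the units `u` -/
def UnitInvariant {A : Type} (t c : ℕ) (g : ℤ → ℤ → A) : Prop :=
  ∀ a b x y : ℤ, a ^ 2 + t * a * b + c * b ^ 2 = 1 →
    g (a * x - c * b * y) (a * y + b * x + t * b * y) = g x y

/-- `E(x + y ω) = E x y` is a function on the residue classes modulo `m` of `ℤ[ω]`, invariant under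
the units -/
structure ClassFunction {A : Type} (t c m : ℕ) (E : ℤ → ℤ → A) : Prop where
  pos : 1 ≤ m
  per : ∀ x y u v : ℤ, x ≡ u [ZMOD m] → y ≡ v [ZMOD m] → E x y = E u v
  unit : UnitInvariant t c E

open scoped Classical in
/-- for every proper subgroup `B` of `A` and every `M`, the primes `p = N(π)`, `π ≡ 1 mod M`, with
`g(π) - g(π̄) ∉ B` have positive lower density -/
def Generic {A : Type} [AddCommGroup A] (t c : ℕ) (g : ℤ → ℤ → A) : Prop :=
  ∀ B : AddSubgroup A, B ≠ ⊤ → ∀ M : ℕ, 1 ≤ M → ∃ δ : ℝ, 0 < δ ∧ ∃ N₀ : ℕ, ∀ N : ℕ, N₀ ≤ N →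
    δ * N ≤ ∑ p ∈ (Icc 1 N).filter (fun p : ℕ => p.Prime ∧ ∃ x y : ℤ, x ≡ 1 [ZMOD M] ∧
      y ≡ 0 [ZMOD M] ∧ x ^ 2 + t * x * y + c * y ^ 2 = p ∧ g x y - g (x + t * y) (-y) ∉ B),
      Real.log p

/-- `z = x + y ω` has norm `p` and divides `n + ω` -/
def Above (t c n p : ℕ) (z : ℤ × ℤ) : Prop :=
  z.1 ^ 2 + t * z.1 * z.2 + c * z.2 ^ 2 = p ∧ (p : ℤ) ∣ z.1 - n * z.2

open scoped Classical in
/-- the value `g(π)` for the elements `π` of norm `p` which divide `n + ω` (`0` if there are none;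
for a prime factor `p` of `n^2+tn+c` there is one, and it is unique up to units) -/
noncomputable def value {A : Type} [AddCommGroup A] (t c : ℕ) (g : ℤ → ℤ → A) (n p : ℕ) : A :=
  if h : ∃ z : ℤ × ℤ, Above t c n p z then g h.choose.1 h.choose.2 else 0

open scoped Classical in
/-- the value `g(π̄)` for the elements `π` of norm `p` which divide `n + ω` -/
noncomputable def conjValue {A : Type} [AddCommGroup A] (t c : ℕ) (g : ℤ → ℤ → A) (n p : ℕ) : A :=
  if h : ∃ z : ℤ × ℤ, Above t c n p z then g (h.choose.1 + t * h.choose.2) (-h.choose.2) else 0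

/-- for `n^2+tn+c = d d'`, the sum of `τ - g(π̄)` over the prime factors of `d` and of `g(π)` over the
prime factors of `d'`, with multiplicity, where `π` is the prime element above `p` dividing `n + ω` -/
noncomputable def stat {A : Type} [AddCommGroup A] (t c : ℕ) (g : ℤ → ℤ → A) (τ : A) (n d : ℕ) : A :=
  (d.primeFactorsList.map (fun p => τ - conjValue t c g n p)).sum +
    (((n ^ 2 + t * n + c) / d).primeFactorsList.map (value t c g n)).sum

/-- the subgroup of `A` generated by `τ` and by all `E(z) + E(w) - E(z w)`, for `z = x + y ω`,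
`w = u + v ω` of norms prime to `m` -/
def defects {A : Type} [AddCommGroup A] (t c m : ℕ) (E : ℤ → ℤ → A) (τ : A) : AddSubgroup A :=
  AddSubgroup.closure {g | ∃ x y u v : ℤ,
    IsCoprime (x ^ 2 + t * x * y + c * y ^ 2) (m : ℤ) ∧
    IsCoprime (u ^ 2 + t * u * v + c * v ^ 2) (m : ℤ) ∧
    g = E x y + E u v - E (x * u - c * y * v) (x * v + y * u + t * y * v)} ⊔
  AddSubgroup.zmultiples τ

/-- either `D = defects t c m E τ` is all of `A`, or `m ∣ q`, `a^2+ta+c` is prime to `m`, and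
`b ∈ E(a + ω) - E(r) + D` -/
def Admissible {A : Type} [AddCommGroup A] (t c m q a r : ℕ) (E : ℤ → ℤ → A) (τ b : A) : Prop :=
  defects t c m E τ = ⊤ ∨ (m ∣ q ∧ (a ^ 2 + t * a + c).Coprime m ∧
    E a 1 - E r 0 - b ∈ defects t c m E τ)

open scoped Classical in
/-- the divisors `d ≡ r mod q` of `n^2+tn+c` with `s₁ X < d ≤ s₂ X` and `s₃ X < d' ≤ s₄ X`, where
`d d' = n^2+tn+c` -/
noncomputable def window (t c q r : ℕ) (s₁ s₂ s₃ s₄ : ℝ) (X n : ℕ) : Finset ℕ :=
  (n ^ 2 + t * n + c).divisors.filter (fun d : ℕ => d ≡ r [MOD q] ∧ s₁ * X < (d : ℝ) ∧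
    (d : ℝ) ≤ s₂ * X ∧ s₃ * X < (((n ^ 2 + t * n + c) / d : ℕ) : ℝ) ∧
    (((n ^ 2 + t * n + c) / d : ℕ) : ℝ) ≤ s₄ * X)

open scoped Classical in
/-- Let `(t, c)` be one of the nine pairs (`(0, 1)` gives `n^2+1`), `F(n) = n^2+tn+c` and
`ω^2 = t ω - c`; the integers `n` are `≥ 0` and `≥ 1 - t`. Let `E` be a function on the residue
classes of `ℤ[ω]` modulo `m`, and `g` an arbitrary function on `ℤ[ω]`, both invariant under the units,
with values in finite abelian groups `A₁`, `A₂`, and let `τ₁`, `τ₂` be in `A₁`, `A₂`. Suppose that `g`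
is generic: for every proper subgroup `B` of `A₂` and every `M` the primes `p = N(π)`, `π ≡ 1 mod M`,
with `g(π) - g(π̄) ∉ B` have positive lower density. For a factorisation `F(n) = d d'` let `S₁` be the
sum of `E(π)` over the prime factors `p` of `d'` and of `τ₁ - E(π̄)` over those of `d`, with
multiplicity, where `π` is the prime element above `p` which divides `n + ω`, and let `S₂` be defined
in the same way by `g` and `τ₂`. Let `D` be the group generated by `τ₁` and the
`E(z) + E(w) - E(z w)` for `z`, `w` prime to `m`.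

If `D = A₁`, or if `m ∣ q`, `F(a)` is prime to `m` and `b₁ ∈ E(a + ω) - E(r) + D`, then for all `b₂`
in `A₂`, `0 ≤ s₁ < s₂ ≤ 1`, `0 ≤ s₃ < s₄ ≤ 1`, `ε > 0` and all `X` outside a set of logarithmic
density `0`, the number of the factorisations `F(n) = d d'` with `n ≤ X`, `n ≡ a mod q`,
`d ≡ r mod q`, `s₁ X < d ≤ s₂ X`, `s₃ X < d' ≤ s₄ X`, `S₁ = b₁` and `S₂ = b₂` differs from
`1 / (|D| |A₂|)` times the number of all these factorisations by at most `ε X`.

For example, if `g(π) + g(π̄) = τ₂` for all `π`, then `S₂` is the sum of `g(π)` over all prime factors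
of `F(n)`. The function `g` is generic if `g(π) - g(π̄)` is in no proper subgroup of `A₂`, for all `π`
of prime norm `p` not dividing `t^2 - 4c` (first part of the statement). -/
theorem result (t c : ℕ) (htc : (t, c) ∈ nine) (A₁ A₂ : Type) [AddCommGroup A₁] [AddCommGroup A₂]
    [Finite A₁] [Finite A₂] (m : ℕ) (E : ℤ → ℤ → A₁) (hE : ClassFunction t c m E) (τ₁ : A₁)
    (g : ℤ → ℤ → A₂) (hg : UnitInvariant t c g) (τ₂ : A₂) (q a r : ℕ) (hq : 1 ≤ q) :
    ((∀ (x y : ℤ) (p : ℕ), p.Prime → ¬ (p : ℤ) ∣ t ^ 2 - 4 * c →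
      x ^ 2 + t * x * y + c * y ^ 2 = p → ∀ B : AddSubgroup A₂, B ≠ ⊤ →
      g x y - g (x + t * y) (-y) ∉ B) → Generic t c g) ∧
    (Generic t c g → ∀ b₁ : A₁, Admissible t c m q a r E τ₁ b₁ → ∀ (b₂ : A₂) (s₁ s₂ s₃ s₄ : ℝ),
      0 ≤ s₁ → s₁ < s₂ → s₂ ≤ 1 → 0 ≤ s₃ → s₃ < s₄ → s₄ ≤ 1 → ∀ ε : ℝ, 0 < ε →
      LogNull (fun X : ℕ => ε * X <
        |∑ n ∈ (range (X + 1)).filter (fun n => 1 ≤ n + t ∧ n ≡ a [MOD q]),
          ∑ d ∈ window t c q r s₁ s₂ s₃ s₄ X n,
          ((if stat t c E τ₁ n d = b₁ ∧ stat t c g τ₂ n d = b₂ then (1 : ℝ) else 0) -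
            1 / ((Nat.card (defects t c m E τ₁) : ℝ) * Nat.card A₂))|)) := by
  obtain ⟨f, χ, hF⟩ := Pool.Agent.W251.EG.fd9 t c htc
  have ht := Pool.Agent.W251.EG.t_le hF
  have hc := Pool.Agent.W251.EG.c_pos hF
  have h : Pool.Agent.V11296.CZ.Rc t c m E := ⟨hE.pos, hE.per, hE.unit⟩
  constructor
  · intro h1 B hB M hM
    have h2 : Pool.Agent.V11296.DA.Gen t c g :=
      Pool.Agent.V11296.DA.gen_of hF (fun x y p hp hpf hxy B hB => h1 x y p hp (by
        intro h3
        apply hpf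
        have h4 := hF.disc
        have h5 : (t : ℤ) ^ 2 - 4 * (c : ℤ) = -(f : ℤ) := by linarith
        rw [h5] at h3
        have h6 := (dvd_neg.1 h3)
        exact_mod_cast h6) hxy B hB)
    obtain ⟨δ, hδ, N₀, hN₀⟩ := h2 B hB M hM
    exact ⟨δ, hδ, N₀, hN₀⟩
  · intro hgen b₁ hb b₂ s₁ s₂ s₃ s₄ h1 h2 h3 h4 h5 h6 ε hε
    have hgen' : Pool.Agent.V11296.DA.Gen t c g := by
      intro B hB M hM
      obtain ⟨δ, hδ, N₀, hN₀⟩ := hgen B hB M hM
      exact ⟨δ, hδ, N₀, hN₀⟩
    have h7 := Pool.Agent.V11296.DA.outU (τ₁ := τ₁) (τ₂ := τ₂) hF h hg hgen' (g₁ := b₁) b₂ (q := q)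
      (a := a) (r := r) hq hb s₁ s₂ s₃ s₄ h1 h2 h3 h4 h5 h6 ε hε
    refine Pool.Agent.TH890.DV.LogNull.of_ev 0 (fun X _ hX => ?_) h7
    refine lt_of_lt_of_le hX (le_of_eq ?_)
    rw [Pool.Agent.V11296.CY.conv_d ht hc _ q a r s₁ s₂ s₃ s₄ h3 h6 X]
    congr 1
    refine sum_congr (by congr!) fun n _ => sum_congr rfl fun d hd => ?_
    have hd1 := Nat.mul_div_cancel' (Nat.mem_divisors.1 (mem_filter.1 hd).1).1
    have e1 : Pool.Agent.V11296.CZ.HC t c E τ₁ (d, (n ^ 2 + t * n + c) / d) =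
        stat t c E τ₁ n d := by
      unfold Pool.Agent.V11296.CZ.HC
      rw [Pool.Agent.V11296.CY.nn_eq (p := (d, (n ^ 2 + t * n + c) / d)) ht hd1]
      rfl
    have e2 : Pool.Agent.V11296.CZ.HC t c g τ₂ (d, (n ^ 2 + t * n + c) / d) =
        stat t c g τ₂ n d := by
      unfold Pool.Agent.V11296.CZ.HC
      rw [Pool.Agent.V11296.CY.nn_eq (p := (d, (n ^ 2 + t * n + c) / d)) ht hd1]
      rfl
    unfold Pool.Agent.V11296.CY.dv
    rw [Pool.Agent.V11296.DA.HC_cmb, e1, e2]
    push_cast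
    congr 1
    by_cases h8 : stat t c E τ₁ n d = b₁ ∧ stat t c g τ₂ n d = b₂
    · rw [if_pos h8, if_pos (Prod.ext h8.1 h8.2)]
    · rw [if_neg h8, if_neg (fun h9 => h8 ⟨congrArg Prod.fst h9, congrArg Prod.snd h9⟩)]

end Pool.Agent.Results.MP_484c84_nt.ArbitraryPrimeFunctions
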