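import Pool.Agent.V11237.LP.IntPair

set_option autoImplicit false

/-!
# `n ^ 2 + 1` almost prime for `n = a q + h`, `q` prime, uniformly in `a` and `h`

For every progression `h mod a`, `a` and `|h|` up to any fixed power of `N`, `a + h` even and `a` prime to
`h ^ 2 + 1`, and every interval `(u, u + Y]` with `u + Y ≤ Y'`, `Y ≥ δ Y'`, `Y' ≥ N ^ θ`, the number of
the PRIMES `q` in the interval for which `n ^ 2 + 1`, `n = a q + h`, has no prime factor up to `N ^ (1 / r)` is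
the number which a uniform Bateman–Horn heuristic predicts, up to a factor `1 ± ε`, and the number of
the integers `m` in `(q, q + T]` with `m` and `(a m + h) ^ 2 + 1` both free of prime factors up to
`N ^ (1 / r)` is a Poisson variable of mean `T V`, over these primes `q`.
-/

namespace Pool.Agent.Results.MP_484c84_nt.PrimeArguments

open Polynomial Finset Filter
open Pool.Agent.V11237.LP Pool.Agent.V11237.LP.IntPair

/-- The values `n ^ 2 + 1` at `n = a m + h`. -/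
def f (a : ℕ) (h : ℤ) (m : ℕ) : ℤ := (a * m + h) ^ 2 + 1

lemma adm_f (a : ℕ) (h : ℤ) (hpar : Even ((a : ℤ) + h)) (hc : IsCoprime (a : ℤ) (h ^ 2 + 1)) (p : ℕ)
    (hp : p.Prime) :
    ∃ m : ℕ, ¬ p ∣ m ∧ ¬ (p : ℤ) ∣ (a : ℤ) ^ 2 * (m : ℤ) ^ 2 + 2 * a * h * m + (h ^ 2 + 1) := by
  have hpi : Prime (p : ℤ) := Nat.prime_iff_prime_int.1 hp
  have e : ∀ m : ℕ, (a : ℤ) ^ 2 * (m : ℤ) ^ 2 + 2 * a * h * m + (h ^ 2 + 1) = (a * m + h) ^ 2 + 1 := by
    intro m
    ring
  simp only [e]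
  rcases hp.eq_two_or_odd with h2 | h2
  · subst h2
    refine ⟨1, by norm_num, ?_⟩
    obtain ⟨k, hk⟩ := hpar
    rintro ⟨l, hl⟩
    push_cast at hl
    rw [mul_one, hk] at hl
    have : (2 : ℤ) * (l - 2 * k ^ 2) = 1 := by linarith [show ((k + k) ^ 2 : ℤ) = 4 * k ^ 2 by ring]
    omega
  · by_cases h3 : p = 3
    · subst h3
      refine ⟨1, by norm_num, ?_⟩
      intro hd
      push_cast at hd
      rw [mul_one] at hd
      have h4 : ((a : ℤ) + h) % 3 = 0 ∨ ((a : ℤ) + h) % 3 = 1 ∨ ((a : ℤ) + h) % 3 = 2 := by omega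
      have h5 := Int.emod_eq_zero_of_dvd hd
      rcases h4 with h4 | h4 | h4 <;> rw [Int.add_emod, pow_two, Int.mul_emod, h4] at h5 <;> norm_num at h5
    · have hp5 : 5 ≤ p := by
        have := hp.two_le
        by_contra hcon
        interval_cases p <;> simp_all
      by_cases hpa : (p : ℤ) ∣ a
      · refine ⟨1, fun h1 => ?_, ?_⟩
        · have := Nat.le_of_dvd one_pos h1
          omega
        · intro hd
          have h4 : (p : ℤ) ∣ h ^ 2 + 1 := by
            have e1 : ((a * (1 : ℕ) + h) ^ 2 + 1 : ℤ) = a * (a + 2 * h) + (h ^ 2 + 1) := by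
              push_cast
              ring
            rw [e1] at hd
            exact (Int.dvd_add_right (hpa.mul_right _)).1 hd
          exact hpi.not_isUnit (hc.isUnit_of_dvd' hpa h4)
      · by_contra hcon
        push Not at hcon
        have g1 := hcon 1 (fun h1 => by have := Nat.le_of_dvd one_pos h1; omega)
        have g2 := hcon 2 (fun h1 => by have := Nat.le_of_dvd two_pos h1; omega)
        have g3 := hcon 3 (fun h1 => by have := Nat.le_of_dvd three_pos h1; omega)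
        have k1 : (p : ℤ) ∣ a * (3 * a + 2 * h) := by
          have := dvd_sub g2 g1
          have e1 : ((a * (2 : ℕ) + h) ^ 2 + 1 - ((a * (1 : ℕ) + h) ^ 2 + 1) : ℤ) =
              a * (3 * a + 2 * h) := by
            push_cast
            ring
          rwa [e1] at this
        have k2 : (p : ℤ) ∣ a * (5 * a + 2 * h) := by
          have := dvd_sub g3 g2
          have e1 : ((a * (3 : ℕ) + h) ^ 2 + 1 - ((a * (2 : ℕ) + h) ^ 2 + 1) : ℤ) =
              a * (5 * a + 2 * h) := by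
            push_cast
            ring
          rwa [e1] at this
        have l1 := (hpi.dvd_or_dvd k1).resolve_left hpa
        have l2 := (hpi.dvd_or_dvd k2).resolve_left hpa
        have l3 : (p : ℤ) ∣ 2 * a := by
          have := dvd_sub l2 l1
          have e1 : ((5 * a + 2 * h) - (3 * a + 2 * h) : ℤ) = 2 * a := by ring
          rwa [e1] at this
        have l4 := (hpi.dvd_or_dvd l3).resolve_right hpa
        have := Int.le_of_dvd two_pos l4
        omega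

/-- **`n ^ 2 + 1` almost prime for `n = a q + h` with `q` prime, uniformly in `a` and `h`**: for all
large `r` and `N`, all `a ≤ N ^ E` and `|h| ≤ N ^ E` with `a + h` even and `a` prime to `h ^ 2 + 1`. -/
theorem result (E : ℕ) (θ δ : ℝ) (hθ : 0 < θ) (hδ : 0 < δ) (hδ1 : δ ≤ 1) (x₀ ε : ℝ) (hε : 0 < ε)
    (hε1 : ε ≤ 1) :
    ∃ r₀ : ℕ, 2 ≤ r₀ ∧ ∀ r : ℕ, r₀ ≤ r → ∃ N₀ : ℕ, ∀ N : ℕ, N₀ ≤ N → ∀ (a : ℕ) (h : ℤ),
      1 ≤ a → a ≤ N ^ E → |h| ≤ (N : ℤ) ^ E → Even ((a : ℤ) + h) → IsCoprime (a : ℤ) (h ^ 2 + 1) →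
      (∀ m : ℕ, m ≤ N → Good (f a h) N r m →
        (f a h m).natAbs.primeFactorsList.length ≤ (2 * E + 4) * r) ∧
      0 < V (f a h) N r ∧
      ∀ Y' : ℕ, (N : ℝ) ^ θ ≤ Y' → ∀ u Y : ℕ, δ * Y' ≤ Y → u + Y ≤ Y' →
        |((P (f a h) N r u Y).card : ℝ) * Real.log Y' - Y * (V (f a h) N r / U N r)| ≤
          ε * (Y * (V (f a h) N r / U N r)) ∧
        ∀ T : ℕ, T * V (f a h) N r ≤ x₀ → ∀ S : Finset ℕ,
        |(((P (f a h) N r u Y).filter (fun q => Next (f a h) N r T q ∈ S)).card : ℝ) -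
          (P (f a h) N r u Y).card *
            ∑ j ∈ S, Real.exp (-(T * V (f a h) N r)) * (T * V (f a h) N r) ^ j / j.factorial| ≤
          ε * (P (f a h) N r u Y).card := by
  obtain ⟨r0, hr0, h0⟩ := law 2 (2 * E + 1) (by norm_num) (by omega) θ δ hθ hδ hδ1 x₀ ε hε hε1
  refine ⟨r0, hr0, ?_⟩
  intro r hr
  obtain ⟨N0, hN0⟩ := h0 r hr
  refine ⟨max N0 2, ?_⟩
  intro N hN a h ha haN hhN hpar hc
  have hN2 : 2 ≤ N := (le_max_right _ _).trans hN
  have hNz : (2 : ℤ) ≤ N := by exact_mod_cast hN2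
  have haz : (1 : ℤ) ≤ a := by exact_mod_cast ha
  have haNz : (a : ℤ) ≤ (N : ℤ) ^ E := by exact_mod_cast haN
  have hNE : (1 : ℤ) ≤ (N : ℤ) ^ E := one_le_pow₀ (by omega)
  have e2 : (N : ℤ) ^ (2 * E + 1) = (N : ℤ) ^ E * (N : ℤ) ^ E * N := by
    rw [pow_succ, two_mul, pow_add]
  have hprod : |(a : ℤ) * h| ≤ (N : ℤ) ^ E * (N : ℤ) ^ E := by
    rw [abs_mul, abs_of_nonneg (by omega : (0 : ℤ) ≤ a)]
    exact mul_le_mul haNz hhN (abs_nonneg _) (by omega)
  have hA := adm_quad ((a : ℤ) ^ 2) (2 * a * h) (h ^ 2 + 1) (by positivity) ?_ ?_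
    ((N : ℤ) ^ (2 * E + 1)) ?_ ?_ ?_ (adm_f a h hpar hc)
  · have key := hN0 N ((le_max_left _ _).trans hN) (f a h)
      (Pool.Agent.TH464.PW.quad ((a : ℤ) ^ 2) (2 * a * h) (h ^ 2 + 1)) (fun m => by
      rw [Pool.Agent.TH464.PW.quad_eval]
      unfold f
      ring) (by
      have e3 : (((N : ℤ) ^ (2 * E + 1) : ℤ) : ℝ) = (N : ℝ) ^ (2 * E + 1) := by push_cast; rfl
      rw [e3] at hA
      exact hA)
    obtain ⟨k1, k2, k3⟩ := key
    refine ⟨fun m hm hg => (k1 m hm hg).trans (le_of_eq (by ring)), k2, k3⟩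
  · rintro p hp ⟨d1, _, d3⟩
    have hpi : Prime (p : ℤ) := Nat.prime_iff_prime_int.1 hp
    exact hpi.not_isUnit (hc.isUnit_of_dvd' (hpi.dvd_of_dvd_pow d1) d3)
  · rintro ⟨s, hs⟩
    have e4 : (2 * (a : ℤ) * h) ^ 2 - 4 * (a : ℤ) ^ 2 * (h ^ 2 + 1) = -(4 * (a : ℤ) ^ 2) := by ring
    rw [e4] at hs
    nlinarith [mul_self_nonneg s, mul_pos (by omega : (0 : ℤ) < a) (by omega : (0 : ℤ) < a)]
  · rw [abs_of_nonneg (by positivity), e2, pow_two]
    nlinarith [mul_le_mul haNz haNz (by omega) (by omega : (0 : ℤ) ≤ (N : ℤ) ^ E),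
      mul_pos (by omega : (0 : ℤ) < (N : ℤ) ^ E) (by omega : (0 : ℤ) < (N : ℤ) ^ E)]
  · rw [e2, mul_assoc, abs_mul, abs_of_nonneg (by norm_num : (0 : ℤ) ≤ 2)]
    nlinarith [mul_pos (by omega : (0 : ℤ) < (N : ℤ) ^ E) (by omega : (0 : ℤ) < (N : ℤ) ^ E)]
  · rw [abs_of_nonneg (by positivity), e2]
    have h5 : h ^ 2 ≤ (N : ℤ) ^ E * (N : ℤ) ^ E := by
      rw [← sq_abs, pow_two]
      exact mul_le_mul hhN hhN (abs_nonneg _) (by omega)
    nlinarith [mul_le_mul hNE hNE (by omega) (by omega : (0 : ℤ) ≤ (N : ℤ) ^ E),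
      mul_pos (by omega : (0 : ℤ) < (N : ℤ) ^ E) (by omega : (0 : ℤ) < (N : ℤ) ^ E)]

end Pool.Agent.Results.MP_484c84_nt.PrimeArguments
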